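import Pool.Agent.H665.AP.Cls

set_option autoImplicit false

/-!
# Abstract elementary classes with prescribed amalgamation spectrum: amalgamation
-/

namespace Pool.Agent.H665.AP

open FirstOrder FirstOrder.Language Cardinal
open Pool.Agent.H288R4.LS (AEC)

/-- amalgamation in `ν` -/
def Amal {L : FirstOrder.Language.{0, 0}} (K : AEC L) (ν : Cardinal.{0}) : Prop :=
  ∀ (M₀ M₁ M₂ : Type) [L.Structure M₀] [L.Structure M₁] [L.Structure M₂]
    (f₁ : M₀ ↪[L] M₁) (f₂ : M₀ ↪[L] M₂), #M₀ = ν → #M₁ = ν → #M₂ = ν → K.emb f₁ → K.emb f₂ →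
    ∃ (N : Type) (_ : L.Structure N) (g₁ : M₁ ↪[L] N) (g₂ : M₂ ↪[L] N),
      #N = ν ∧ K.emb g₁ ∧ K.emb g₂ ∧ ∀ x, g₁ (f₁ x) = g₂ (f₂ x)

/-- finite cardinals -/
theorem amal_finite {L : FirstOrder.Language.{0, 0}} (K : AEC L) {ν : Cardinal.{0}}
    (hν : ν < ℵ₀) : Amal K ν := by
  intro M₀ M₁ M₂ _ _ _ f₁ f₂ h0 h1 h2 e1 e2
  have hfin : Finite M₁ := Cardinal.lt_aleph0_iff_finite.1 (h1 ▸ hν)
  have hfin0 : Finite M₀ := Cardinal.lt_aleph0_iff_finite.1 (h0 ▸ hν)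
  have hsurj : Function.Surjective f₁ := by
    have hcard : Nat.card M₀ = Nat.card M₁ := by
      unfold Nat.card
      rw [h0, h1]
    have hb := (Nat.bijective_iff_injective_and_card (f := (f₁ : M₀ → M₁))).2
      ⟨f₁.injective, hcard⟩
    exact hb.2
  let e : M₀ ≃[L] M₁ := { toEquiv := Equiv.ofBijective f₁ ⟨f₁.injective, hsurj⟩
                          map_fun' := fun f x => f₁.map_fun f x
                          map_rel' := fun R x => f₁.map_rel R x }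
  have h3 : K.emb e.symm.toEmbedding := K.emb_equiv e.symm (K.emb_mem f₁ e1).2
  have h4 : K.emb (Embedding.refl L M₂) := by
    have := K.emb_equiv (FirstOrder.Language.Equiv.refl L M₂) (K.emb_mem f₂ e2).2
    exact this
  refine ⟨M₂, inferInstance, f₂.comp e.symm.toEmbedding, Embedding.refl L M₂, h2,
    K.emb_comp _ _ e2 h3, h4, fun x => ?_⟩
  have h5 : e.symm (f₁ x) = x := e.symm_apply_apply x
  change f₂ (e.symm (f₁ x)) = f₂ x
  rw [h5]

variable {F : Set Cardinal.{0}} {χ : Cardinal.{0}} (hF : ∀ ν ∈ F, ℵ₀ ≤ ν) (hχ : ℵ₀ ≤ χ)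
  (hbig : ∀ ν ∈ F, χ ≤ ν → ∀ ν', χ ≤ ν' → ν' ∈ F)

/-- the green structure -/
@[instance_reducible]
def gr (M : Type) : LP.Structure M := mkP fun i _ => i = 2

theorem mg_gr (M : Type) : @MG M (gr M) := by
  intro _
  let _ := gr M
  refine ⟨rfl, ?_⟩
  rintro (h | h)
  · exact absurd (show (0 : Fin 3) = 2 from h) (by decide)
  · exact absurd (show (1 : Fin 3) = 2 from h) (by decide)

theorem pd_green {M : Type} [LP.Structure M] (h : MG M) (i : Fin 3) (x : M) : pd i x ↔ i = 2 := by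
  have h1 := h x
  fin_cases i
  · exact iff_of_false (fun h2 => h1.2 (Or.inl h2)) (by decide)
  · exact iff_of_false (fun h2 => h1.2 (Or.inr h2)) (by decide)
  · exact iff_of_true h1.1 rfl

theorem mem_all (μ : Cardinal.{0}) : ∃ (M : Type) (_ : LP.Structure M),
    (KF F χ hF hχ hbig).mem M ∧ #M = μ :=
  ⟨μ.out, gr μ.out, Or.inl (mg_gr μ.out), Cardinal.mk_out μ⟩

theorem amal_of_not_mem {ν : Cardinal.{0}} (hν : ν ∉ F) : Amal (KF F χ hF hχ hbig) ν := by
  classical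
  rcases lt_or_ge ν ℵ₀ with hfin | hinf
  · exact amal_finite _ hfin
  intro M₀ M₁ M₂ _ _ _ f₁ f₂ h0 h1 h2 e1 e2
  have hg1 : MG M₀ ∧ MG M₁ := by
    rcases e1 with e1 | e1
    · exact e1
    · exact absurd (h0 ▸ e1.1.2.1) hν
  have hg2 : MG M₀ ∧ MG M₂ := by
    rcases e2 with e2 | e2
    · exact e2
    · exact absurd (h0 ▸ e2.1.2.1) hν
  let N := M₁ ⊕ {y : M₂ // ∀ x, f₂ x ≠ y}
  let _ : LP.Structure N := gr N
  let j1 : M₁ ↪ N := ⟨Sum.inl, Sum.inl_injective⟩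
  let j2f : M₂ → N := fun y => if h : ∃ x, f₂ x = y then Sum.inl (f₁ (Classical.choose h)) else
    Sum.inr ⟨y, fun x hx => h ⟨x, hx⟩⟩
  have j2a : ∀ x, j2f (f₂ x) = Sum.inl (f₁ x) := by
    intro x
    have h : ∃ x', f₂ x' = f₂ x := ⟨x, rfl⟩
    have h3 : Classical.choose h = x := f₂.injective (Classical.choose_spec h)
    simp only [j2f, dif_pos h, h3]
  have j2b : ∀ (y : M₂) (hy : ∀ x, f₂ x ≠ y), j2f y = Sum.inr ⟨y, hy⟩ := by
    intro y hy
    have h : ¬ ∃ x', f₂ x' = y := fun ⟨x, hx⟩ => hy x hx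
    simp only [j2f, dif_neg h]
  have j2i : Function.Injective j2f := by
    intro y z hyz
    by_cases hy : ∃ x, f₂ x = y
    · obtain ⟨x, rfl⟩ := hy
      by_cases hz : ∃ x, f₂ x = z
      · obtain ⟨x', rfl⟩ := hz
        rw [j2a, j2a] at hyz
        rw [f₁.injective (Sum.inl.inj hyz)]
      · rw [j2a, j2b z fun x hx => hz ⟨x, hx⟩] at hyz
        cases hyz
    · by_cases hz : ∃ x, f₂ x = z
      · obtain ⟨x', rfl⟩ := hz
        rw [j2a, j2b y fun x hx => hy ⟨x, hx⟩] at hyz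
        cases hyz
      · rw [j2b y fun x hx => hy ⟨x, hx⟩, j2b z fun x hx => hz ⟨x, hx⟩] at hyz
        exact congrArg (fun w : {y : M₂ // ∀ x, f₂ x ≠ y} => w.1) (Sum.inr.inj hyz)
  have hgN : MG N := mg_gr N
  let g1 : M₁ ↪[LP] N := toEmb j1 fun i x => by rw [pd_green hgN, pd_green hg1.2]
  let g2 : M₂ ↪[LP] N := toEmb ⟨j2f, j2i⟩ fun i x => by rw [pd_green hgN, pd_green hg2.2]
  refine ⟨N, inferInstance, g1, g2, ?_, Or.inl ⟨hg1.2, hgN⟩, Or.inl ⟨hg2.2, hgN⟩, fun x =>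
    (j2a x).symm⟩
  have h5 : #N = #M₁ + #{y : M₂ // ∀ x, f₂ x ≠ y} := by
    rw [Cardinal.mk_sum, Cardinal.lift_id, Cardinal.lift_id]
  have h6 : #{y : M₂ // ∀ x, f₂ x ≠ y} ≤ ν := by
    rw [← h2]
    exact Cardinal.mk_subtype_le _
  rw [h5, h1]
  exact le_antisymm (Cardinal.add_le_of_le hinf le_rfl h6) (self_le_add_right _ _)

/-- the structure with one more point, of colour `j` -/
@[instance_reducible]
def op (j : Fin 3) (M : Type) : LP.Structure (Option M) := mkP fun i x => i = j ∧ x = none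

/-- the structure without coloured points -/
@[instance_reducible]
def pl (M : Type) : LP.Structure M := mkP fun _ _ => False

theorem not_amal {ν : Cardinal.{0}} (hν : ν ∈ F) (M₀ : Type) (h0 : #M₀ = ν) :
    ∃ (s₀ : LP.Structure M₀) (s₁ s₂ : LP.Structure (Option M₀))
      (f₁ : @Embedding LP M₀ (Option M₀) s₀ s₁) (f₂ : @Embedding LP M₀ (Option M₀) s₀ s₂),
      @AEC.emb LP (KF F χ hF hχ hbig) _ _ s₀ s₁ f₁ ∧ @AEC.emb LP (KF F χ hF hχ hbig) _ _ s₀ s₂ f₂ ∧
      ∀ (N : Type) (_ : LP.Structure N) (g₁ : @Embedding LP (Option M₀) N s₁ _)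
        (g₂ : @Embedding LP (Option M₀) N s₂ _),
        @AEC.emb LP (KF F χ hF hχ hbig) _ _ s₁ _ g₁ →
        @AEC.emb LP (KF F χ hF hχ hbig) _ _ s₂ _ g₂ → False := by
  have hO : #(Option M₀) = ν := by
    rw [Cardinal.mk_option, h0, Cardinal.add_one_eq (hF ν hν)]
  have key : ∀ j : Fin 3, j ≠ 2 → ∃ f : @Embedding LP M₀ (Option M₀) (pl M₀) (op j M₀),
      @AEC.emb LP (KF F χ hF hχ hbig) _ _ (pl M₀) (op j M₀) f := by
    intro j hj
    let _ := pl M₀
    let _ := op j M₀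
    have hpd : ∀ (i : Fin 3) (x : Option M₀), pd i x ↔ i = j ∧ x = none := fun i x => Iff.rfl
    have hpl : ∀ (i : Fin 3) (x : M₀), ¬ pd i x := fun i x h => h
    let f : M₀ ↪[LP] Option M₀ := toEmb ⟨some, Option.some_injective _⟩ fun i x =>
      iff_of_false (fun h => by cases ((hpd i _).1 h).2) (hpl i x)
    have hcol : ∀ x : Option M₀, col x → x = none := by
      rintro x (h | h)
      · exact ((hpd _ _).1 h).2
      · exact ((hpd _ _).1 h).2
    have hN : MF F χ (Option M₀) := by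
      refine ⟨fun x hx => hj ((hpd _ _).1 hx).1.symm, hO ▸ hν, fun x y hx hy => ?_,
        fun _ x y hx hy => (hcol x hx).trans (hcol y hy).symm⟩
      have h3 := ((hpd _ _).1 hx).1.trans ((hpd _ _).1 hy).1.symm
      exact absurd h3 (by decide)
    have hM : MF F χ M₀ := mf_down f hN (h0 ▸ hν) (fun h => by rw [hO]; rwa [h0] at h)
    refine ⟨f, Or.inr ⟨hM, hN, ?_⟩⟩
    rcases le_or_gt χ #M₀ with h1 | h1
    · exact Or.inl h1
    · refine Or.inr ⟨by rw [hO]; rwa [h0] at h1, fun y hy => ?_⟩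
      have h2 : y = none := by
        cases y with
        | none => rfl
        | some x => exact (hy x rfl).elim
      subst h2
      by_cases h01 : j = 0
      · exact Or.inl ((hpd 0 none).2 ⟨h01.symm, rfl⟩)
      · have h1j : j = 1 := by
          fin_cases j
          · exact absurd rfl h01
          · rfl
          · exact absurd rfl hj
        exact Or.inr ((hpd 1 none).2 ⟨h1j.symm, rfl⟩)
  obtain ⟨f1, e1⟩ := key 0 (by decide)
  obtain ⟨f2, e2⟩ := key 1 (by decide)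
  refine ⟨pl M₀, op 0 M₀, op 1 M₀, f1, f2, e1, e2, ?_⟩
  intro N _ g1 g2 k1 k2
  have r1 : pd 0 (g1 none) := (@pd_emb _ _ (op 0 M₀) _ g1 0 none).2 ⟨rfl, rfl⟩
  have r2 : pd 1 (g2 none) := (@pd_emb _ _ (op 1 M₀) _ g2 1 none).2 ⟨rfl, rfl⟩
  have hN : MF F χ N := by
    rcases k1 with k1 | k1
    · exact absurd (Or.inl r1) (k1.2 (g1 none)).2
    · exact k1.2.1
  exact hN.2.2.1 _ _ r1 r2

theorem amal_iff (ν : Cardinal.{0}) : Amal (KF F χ hF hχ hbig) ν ↔ ν ∉ F := by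
  refine ⟨fun h hν => ?_, amal_of_not_mem hF hχ hbig⟩
  obtain ⟨s0, s1, s2, f1, f2, e1, e2, H⟩ := not_amal hF hχ hbig hν ν.out (Cardinal.mk_out ν)
  have hO : #(Option ν.out) = ν := by
    rw [Cardinal.mk_option, Cardinal.mk_out, Cardinal.add_one_eq (hF ν hν)]
  obtain ⟨N, i, g1, g2, -, k1, k2, -⟩ := @h ν.out (Option ν.out) (Option ν.out) s0 s1 s2 f1 f2
    (Cardinal.mk_out ν) hO hO e1 e2
  exact H N i g1 g2 k1 k2

theorem ls_le {κ : Cardinal.{0}} (hκ : ℵ₀ ≤ κ) (hFκ : ∀ ν ∈ F, ν ≤ κ) :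
    (KF F χ hF hχ hbig).lsNum ≤ κ := by
  refine csInf_le' ⟨hκ, card_LP.trans hκ, fun N _ hN X => ?_⟩
  rcases hN with hN | hN
  · exact ⟨sub X, subset_rfl, Or.inl ⟨mg_down (sub X).subtype hN, hN⟩, self_le_add_right _ _⟩
  · have hT : #(⊤ : LP.Substructure N) = #N := Cardinal.mk_univ
    have hid : EF F χ (⊤ : LP.Substructure N).subtype := by
      refine Or.inr ⟨mf_down (⊤ : LP.Substructure N).subtype hN (by rw [hT]; exact hN.2.1)
        (fun h => by rwa [hT] at h), hN, ?_⟩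
      rcases le_or_gt χ #N with h1 | h1
      · exact Or.inl (by rw [hT]; exact h1)
      · exact Or.inr ⟨h1, fun y hy => (hy ⟨y, Substructure.mem_top y⟩ rfl).elim⟩
    refine ⟨⊤, fun _ _ => Substructure.mem_top _, hid, ?_⟩
    rw [hT]
    exact (hFκ _ hN.2.1).trans (self_le_add_left _ _)

end Pool.Agent.H665.AP
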