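import Pool.Graph.R_seed8.H288R4.LS.Thr

set_option autoImplicit false

/-!
# Abstract elementary classes with prescribed amalgamation spectrum: the class
-/

namespace Pool.Agent.H665.AP

open FirstOrder FirstOrder.Language Cardinal
open Pool.Agent.H288R4.LS (AEC)

/-- three unary predicates -/
inductive Pr : ℕ → Type
  | p : Fin 3 → Pr 1

/-- the vocabulary with three unary predicates -/
abbrev LP : FirstOrder.Language.{0, 0} := ⟨fun _ => Empty, Pr⟩

/-- the `i`-th predicate -/
def pd {M : Type} [LP.Structure M] (i : Fin 3) (x : M) : Prop :=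
  Language.Structure.RelMap (L := LP) (n := 1) (Pr.p i) ![x]

/-- the structure given by three subsets -/
@[instance_reducible]
def mkP {M : Type} (t : Fin 3 → M → Prop) : LP.Structure M where
  funMap := fun f => f.elim
  RelMap := fun {n} R x => match n, R, x with
    | 1, Pr.p i, x => t i (x 0)

theorem pd_mk {M : Type} (t : Fin 3 → M → Prop) (i : Fin 3) (x : M) :
    @pd M (mkP t) i x ↔ t i x := Iff.rfl

theorem pd_emb {M N : Type} [LP.Structure M] [LP.Structure N] (f : M ↪[LP] N) (i : Fin 3) (x : M) :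
    pd i (f x) ↔ pd i x := by
  have h1 := f.map_rel (n := 1) (Pr.p i) ![x]
  have h2 : (f ∘ ![x] : Fin 1 → N) = ![f x] := by
    funext j
    fin_cases j
    rfl
  rw [h2] at h1
  exact h1

/-- embeddings are the injective maps that respect the predicates -/
def toEmb {M N : Type} [LP.Structure M] [LP.Structure N] (g : M ↪ N)
    (h : ∀ i x, pd i (g x) ↔ pd i x) : M ↪[LP] N where
  toEmbedding := g
  map_fun' := fun f => f.elim
  map_rel' := by
    intro n R x
    cases R with
    | p i =>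
      have e1 : x = ![x 0] := by
        funext j
        fin_cases j
        rfl
      have e2 : (g ∘ x) = ![g (x 0)] := by
        funext j
        fin_cases j
        rfl
      have h1 := h i (x 0)
      unfold pd at h1
      rw [← e1, ← e2] at h1
      exact h1

/-- the substructure with a given universe -/
def sub {M : Type} [LP.Structure M] (S : Set M) : LP.Substructure M where
  carrier := S
  fun_mem := fun f => f.elim

theorem card_LP : LP.card ≤ ℵ₀ := by
  have : Countable ((Σ l, LP.Functions l) ⊕ Σ l, LP.Relations l) := by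
    have h1 : IsEmpty (Σ l, LP.Functions l) := ⟨fun x => x.2.elim⟩
    have h2 : Countable (Σ l, LP.Relations l) := by
      refine Function.Injective.countable (f := fun x : (Σ l, LP.Relations l) =>
        (match x with | ⟨_, Pr.p i⟩ => i : Fin 3)) ?_
      rintro ⟨_, ⟨i⟩⟩ ⟨_, ⟨j⟩⟩ h
      have h' : i = j := h
      rw [h']
    infer_instance
  exact Cardinal.mk_le_aleph0_iff.2 this

variable (F : Set Cardinal.{0}) (χ : Cardinal.{0})

/-- coloured points -/
def col {M : Type} [LP.Structure M] (x : M) : Prop := pd 0 x ∨ pd 1 x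

/-- all points are green and not coloured -/
def MG (M : Type) [LP.Structure M] : Prop := ∀ x : M, pd 2 x ∧ ¬ col x

/-- the other members -/
def MF (M : Type) [LP.Structure M] : Prop :=
  (∀ x : M, ¬ pd 2 x) ∧ #M ∈ F ∧ (∀ x y : M, pd 0 x → ¬ pd 1 y) ∧
    (#M < χ → ∀ x y : M, col x → col y → x = y)

/-- the embeddings of the class -/
def EF {M N : Type} [LP.Structure M] [LP.Structure N] (f : M ↪[LP] N) : Prop :=
  (MG M ∧ MG N) ∨ (MF F χ M ∧ MF F χ N ∧ (χ ≤ #M ∨ (#N < χ ∧ ∀ y : N, (∀ x, f x ≠ y) → col y)))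

variable {F χ}

theorem col_emb {M N : Type} [LP.Structure M] [LP.Structure N] (f : M ↪[LP] N) (x : M) :
    col (f x) ↔ col x := by
  unfold col
  rw [pd_emb, pd_emb]

theorem mg_down {M N : Type} [LP.Structure M] [LP.Structure N] (f : M ↪[LP] N) (h : MG N) : MG M :=
  fun x => ⟨(pd_emb f 2 x).1 (h (f x)).1, fun hx => (h (f x)).2 ((col_emb f x).2 hx)⟩

theorem mf_down {M N : Type} [LP.Structure M] [LP.Structure N] (f : M ↪[LP] N) (h : MF F χ N)
    (hM : #M ∈ F) (hs : #M < χ → #N < χ) : MF F χ M := by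
  refine ⟨fun x hx => h.1 _ ((pd_emb f 2 x).2 hx), hM, fun x y hx hy => ?_, fun hc x y hx hy => ?_⟩
  · exact h.2.2.1 _ _ ((pd_emb f 0 x).2 hx) ((pd_emb f 1 y).2 hy)
  · exact f.injective (h.2.2.2 (hs hc) _ _ ((col_emb f x).2 hx) ((col_emb f y).2 hy))

theorem not_both (hF : ∀ ν ∈ F, ℵ₀ ≤ ν) {M : Type} [LP.Structure M] (h1 : MG M) (h2 : MF F χ M) :
    False := by
  have h3 : #M ≠ 0 := (Cardinal.aleph0_pos.trans_le (hF _ h2.2.1)).ne'
  obtain ⟨x⟩ := Cardinal.mk_ne_zero_iff.1 h3
  exact h2.1 x (h1 x).1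

theorem emb_card {M N : Type} [LP.Structure M] [LP.Structure N] (f : M ↪[LP] N) : #M ≤ #N :=
  Cardinal.mk_le_of_injective f.injective

/-- one more point does not change the cardinality -/
theorem card_eq {M N : Type} [LP.Structure M] [LP.Structure N] (f : M ↪[LP] N) (hM : ℵ₀ ≤ #M)
    (h : ∀ y z : N, (∀ x, f x ≠ y) → (∀ x, f x ≠ z) → y = z) : #N = #M := by
  classical
  refine le_antisymm ?_ (emb_card f)
  have h1 : #N ≤ #(Option M) := by
    refine Cardinal.mk_le_of_injective (f := fun y : N => if hy : ∃ x, f x = y then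
      some (Classical.choose hy) else none) ?_
    intro y z hyz
    by_cases hy : ∃ x, f x = y
    · by_cases hz : ∃ x, f x = z
      · simp only [dif_pos hy, dif_pos hz] at hyz
        have h2 := Option.some.inj hyz
        rw [← Classical.choose_spec hy, h2, Classical.choose_spec hz]
      · simp only [dif_pos hy, dif_neg hz] at hyz
        cases hyz
    · by_cases hz : ∃ x, f x = z
      · simp only [dif_neg hy, dif_pos hz] at hyz
        cases hyz
      · exact h y z (fun x hx => hy ⟨x, hx⟩) (fun x hx => hz ⟨x, hx⟩)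
  rw [Cardinal.mk_option, Cardinal.add_one_eq hM] at h1
  exact h1

section cls

variable (hF : ∀ ν ∈ F, ℵ₀ ≤ ν) (hχ : ℵ₀ ≤ χ) (hbig : ∀ ν ∈ F, χ ≤ ν → ∀ ν', χ ≤ ν' → ν' ∈ F)

include hF hbig in
theorem chain_union {N : Type} [LP.Structure N] {ι : Type} [LinearOrder ι] [Nonempty ι]
    (A : ι → LP.Substructure N) (hA : Monotone A)
    (h : ∀ i j (hij : i ≤ j), EF F χ (Language.Substructure.inclusion (hA hij))) (i : ι) :
    EF F χ (Language.Substructure.inclusion (le_iSup A i)) := by
  have hmem : ∀ x : (⨆ i, A i : LP.Substructure N), ∃ k, i ≤ k ∧ (x : N) ∈ A k := by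
    intro x
    obtain ⟨k, hk⟩ := (Substructure.mem_iSup_of_directed hA.directed_le).1 x.2
    exact ⟨max i k, le_max_left _ _, hA (le_max_right i k) hk⟩
  have hcol : ∀ (k : ι) (x : A k), ∀ j, pd j (⟨x.1, le_iSup A k x.2⟩ :
      (⨆ i, A i : LP.Substructure N)) ↔ pd j x := fun k x j =>
    pd_emb (Substructure.inclusion (le_iSup A k)) j x
  rcases h i i le_rfl with h1 | h1
  · have hg : ∀ k, i ≤ k → MG (A k) := by
      intro k hk
      rcases h i k hk with h2 | h2
      · exact h2.2
      · exact (not_both hF h1.1 h2.1).elim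
    refine Or.inl ⟨h1.1, fun x => ?_⟩
    obtain ⟨k, hk, hx⟩ := hmem x
    have h3 := hg k hk ⟨x.1, hx⟩
    have h4 := hcol k ⟨x.1, hx⟩
    refine ⟨(h4 2).2 h3.1, fun h5 => h3.2 ?_⟩
    rcases h5 with h5 | h5
    · exact Or.inl ((h4 0).1 h5)
    · exact Or.inr ((h4 1).1 h5)
  · have hf : ∀ k (hk : i ≤ k), MF F χ (A k) ∧ (χ ≤ #(A i) ∨ (#(A k) < χ ∧
        ∀ y : A k, (∀ x, Substructure.inclusion (hA hk) x ≠ y) → col y)) := by
      intro k hk
      rcases h i k hk with h2 | h2
      · exact (not_both hF h2.1 h1.1).elim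
      · exact h2.2
    have hcolk : ∀ (k : ι) (x : A k), col (⟨x.1, le_iSup A k x.2⟩ :
      (⨆ i, A i : LP.Substructure N)) ↔ col x := fun k x =>
      col_emb (Substructure.inclusion (le_iSup A k)) x
    have hc := emb_card (Substructure.inclusion (le_iSup A i))
    have hng : ∀ x : (⨆ i, A i : LP.Substructure N), ¬ pd 2 x := by
      intro x hx
      obtain ⟨k, hk, hx'⟩ := hmem x
      exact (hf k hk).1.1 ⟨x.1, hx'⟩ ((hcol k ⟨x.1, hx'⟩ 2).1 hx)
    have hrb : ∀ x y : (⨆ i, A i : LP.Substructure N), pd 0 x → ¬ pd 1 y := by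
      intro x y hx hy
      obtain ⟨k, hk, hx'⟩ := hmem x
      obtain ⟨l, hl, hy'⟩ := hmem y
      have hx2 : x.1 ∈ A (max k l) := hA (le_max_left k l) hx'
      have hy2 : y.1 ∈ A (max k l) := hA (le_max_right k l) hy'
      exact (hf (max k l) (hk.trans (le_max_left _ _))).1.2.2.1 ⟨x.1, hx2⟩ ⟨y.1, hy2⟩
        ((hcol _ ⟨x.1, hx2⟩ 0).1 hx) ((hcol _ ⟨y.1, hy2⟩ 1).1 hy)
    by_cases hsm : χ ≤ #(A i)
    · refine Or.inr ⟨h1.1, ⟨hng, hbig _ h1.1.2.1 hsm _ (hsm.trans hc), hrb, fun h2 => ?_⟩,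
        Or.inl hsm⟩
      exact absurd (h2.trans_le (hsm.trans hc)) (lt_irrefl _)
    · have hone : ∀ x y : (⨆ i, A i : LP.Substructure N), col x → col y → x = y := by
        intro x y hx hy
        obtain ⟨k, hk, hx'⟩ := hmem x
        obtain ⟨l, hl, hy'⟩ := hmem y
        have hx2 : x.1 ∈ A (max k l) := hA (le_max_left k l) hx'
        have hy2 : y.1 ∈ A (max k l) := hA (le_max_right k l) hy'
        obtain ⟨h3, h4⟩ := hf (max k l) (hk.trans (le_max_left _ _))
        have h5 := h3.2.2.2 (h4.resolve_left hsm).1 ⟨x.1, hx2⟩ ⟨y.1, hy2⟩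
          ((hcolk _ ⟨x.1, hx2⟩).1 hx) ((hcolk _ ⟨y.1, hy2⟩).1 hy)
        exact Subtype.ext (congrArg (fun z : A (max k l) => (z : N)) h5)
      have hout : ∀ y : (⨆ i, A i : LP.Substructure N),
          (∀ x, Substructure.inclusion (le_iSup A i) x ≠ y) → col y := by
        intro y hy
        obtain ⟨k, hk, hy'⟩ := hmem y
        refine (hcolk k ⟨y.1, hy'⟩).2 (((hf k hk).2.resolve_left hsm).2 ⟨y.1, hy'⟩ ?_)
        intro x hx
        refine hy x (Subtype.ext ?_)
        exact congrArg (fun z : A k => (z : N)) hx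
      have hcard := card_eq (Substructure.inclusion (le_iSup A i)) (hF _ h1.1.2.1)
        (fun y z hy hz => hone y z (hout y hy) (hout z hz))
      have hlt : #(⨆ i, A i : LP.Substructure N) < χ := by
        rw [hcard]
        exact not_le.1 hsm
      refine Or.inr ⟨h1.1, ⟨hng, by rw [hcard]; exact h1.1.2.1, hrb, fun _ => hone⟩,
        Or.inr ⟨hlt, hout⟩⟩

include hF hbig in
theorem chain_bound {N : Type} [LP.Structure N] {ι : Type} [LinearOrder ι] [Nonempty ι]
    (A : ι → LP.Substructure N) (_ : Monotone A) (h : ∀ i, EF F χ (A i).subtype) :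
    EF F χ (⨆ i, A i).subtype := by
  obtain ⟨i⟩ := (inferInstance : Nonempty ι)
  rcases h i with h1 | h1
  · exact Or.inl ⟨mg_down (⨆ i, A i).subtype h1.2, h1.2⟩
  · have hc := emb_card (Substructure.inclusion (le_iSup A i))
    rcases h1.2.2 with h2 | h2
    · refine Or.inr ⟨mf_down (⨆ i, A i).subtype h1.2.1 (hbig _ h1.1.2.1 h2 _ (h2.trans hc)) ?_,
        h1.2.1, Or.inl (h2.trans hc)⟩
      intro h3
      exact absurd (h3.trans_le (h2.trans hc)) (lt_irrefl _)
    · have h3 := card_eq (A i).subtype (hF _ h1.1.2.1) (fun y z hy hz =>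
        h1.2.1.2.2.2 h2.1 y z (h2.2 y hy) (h2.2 z hz))
      have h4 : #(⨆ i, A i : LP.Substructure N) = #(A i) :=
        le_antisymm ((emb_card (⨆ i, A i).subtype).trans h3.le) hc
      refine Or.inr ⟨mf_down (⨆ i, A i).subtype h1.2.1 (by rw [h4]; exact h1.1.2.1)
        (fun _ => h2.1), h1.2.1, Or.inr ⟨h2.1, fun y hy => h2.2 y fun x hx => ?_⟩⟩
      exact hy ⟨x.1, le_iSup A i x.2⟩ hx

include hbig in
/-- small submodels -/
theorem ls_prop (N : Type) [LP.Structure N] (hN : MG N ∨ MF F χ N) (X : Set N) :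
    ∃ A : LP.Substructure N, X ⊆ A ∧ EF F χ A.subtype ∧ #A ≤ #X + χ := by
  rcases hN with hN | hN
  · exact ⟨sub X, subset_rfl, Or.inl ⟨mg_down (sub X).subtype hN, hN⟩, self_le_add_right _ _⟩
  · by_cases hs : #N < χ
    · have hT : #(⊤ : LP.Substructure N) = #N := Cardinal.mk_univ
      refine ⟨⊤, fun _ _ => Substructure.mem_top _, Or.inr
        ⟨mf_down (⊤ : LP.Substructure N).subtype hN (by rw [hT]; exact hN.2.1) (fun _ => hs), hN,
          Or.inr ⟨hs, fun y hy => (hy ⟨y, Substructure.mem_top y⟩ rfl).elim⟩⟩, ?_⟩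
      rw [hT]
      exact hs.le.trans (self_le_add_left _ _)
    · have hs' := not_lt.1 hs
      obtain ⟨S, hS⟩ := Cardinal.le_mk_iff_exists_set.1 hs'
      have h1 : χ ≤ #(sub (X ∪ S) : LP.Substructure N) := by
        rw [← hS]
        exact Cardinal.mk_le_mk_of_subset Set.subset_union_right
      refine ⟨sub (X ∪ S), Set.subset_union_left, Or.inr
        ⟨mf_down (sub (X ∪ S)).subtype hN (hbig _ hN.2.1 hs' _ h1)
          (fun h2 => absurd (h2.trans_le h1) (lt_irrefl _)), hN, Or.inl h1⟩, ?_⟩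
      refine (Cardinal.mk_union_le X S).trans ?_
      rw [hS]

/-- the class -/
def KF (F : Set Cardinal.{0}) (χ : Cardinal.{0}) (hF : ∀ ν ∈ F, ℵ₀ ≤ ν) (hχ : ℵ₀ ≤ χ)
    (hbig : ∀ ν ∈ F, χ ≤ ν → ∀ ν', χ ≤ ν' → ν' ∈ F) : AEC LP where
  mem := fun M _ => MG M ∨ MF F χ M
  emb := fun f => EF F χ f
  emb_mem := by
    intro M N _ _ f hf
    rcases hf with h | h
    · exact ⟨Or.inl h.1, Or.inl h.2⟩
    · exact ⟨Or.inr h.1, Or.inr h.2.1⟩
  emb_equiv := by
    intro M N _ _ e h
    have hc : #N = #M := (Cardinal.mk_congr e.toEquiv).symm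
    rcases h with h | h
    · exact Or.inl ⟨h, mg_down e.symm.toEmbedding h⟩
    · refine Or.inr ⟨h, mf_down e.symm.toEmbedding h (hc ▸ h.2.1) (fun h1 => hc ▸ h1), ?_⟩
      rcases le_or_gt χ #M with h1 | h1
      · exact Or.inl h1
      · exact Or.inr ⟨hc ▸ h1, fun y hy => (hy (e.symm y) (e.apply_symm_apply y)).elim⟩
  emb_comp := by
    intro M N R _ _ _ g f hg hf
    rcases hf with hf | hf
    · rcases hg with hg | hg
      · exact Or.inl ⟨hf.1, hg.2⟩
      · exact (not_both hF hf.2 hg.1).elim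
    · rcases hg with hg | hg
      · exact (not_both hF hg.1 hf.2.1).elim
      · refine Or.inr ⟨hf.1, hg.2.1, ?_⟩
        rcases hf.2.2 with h1 | h1
        · exact Or.inl h1
        · rcases hg.2.2 with h2 | h2
          · exact absurd (h1.1.trans_le h2) (lt_irrefl _)
          · refine Or.inr ⟨h2.1, fun y hy => ?_⟩
            by_cases hz : ∃ z, g z = y
            · obtain ⟨z, rfl⟩ := hz
              refine (col_emb g z).2 (h1.2 z fun x hx => hy x ?_)
              rw [← hx]
              rfl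
            · exact h2.2 y fun z hz' => hz ⟨z, hz'⟩
  coherence := by
    intro M N R _ _ _ g f hg hgf
    rcases hg with hg | hg
    · rcases hgf with h | h
      · exact Or.inl ⟨h.1, hg.1⟩
      · exact (not_both hF hg.2 h.2.1).elim
    · rcases hgf with h | h
      · exact (not_both hF h.2 hg.2.1).elim
      · refine Or.inr ⟨h.1, hg.1, ?_⟩
        rcases h.2.2 with h1 | h1
        · exact Or.inl h1
        · refine Or.inr ⟨(emb_card g).trans_lt h1.1, fun y hy => (col_emb g y).1
            (h1.2 (g y) fun x hx => hy x (g.injective hx))⟩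
  chain_union := fun {N} _ {ι} _ _ A hA h i => chain_union hF hbig A hA h i
  chain_bound := fun {N} _ {ι} _ _ A hA h => chain_bound hF hbig A hA h
  ls := ⟨χ, hχ, card_LP.trans hχ, fun N _ hN X => ls_prop hbig N hN X⟩

end cls

end Pool.Agent.H665.AP
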